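import Pool.Agent.R261.Weights

/-!
# MP_968b24_an, Q2: fully monotonic weights with different limits

There is a sequence of zeros and ones such that every number `c` between `0` and `1` is the limit of
the weighted means for some admissible fully monotonic sequence of weights.
-/

set_option autoImplicit false

open Filter Topology Finset

namespace Pool.Agent.Results.MP_968b24_an.EveryLimit

/-- The iterated differences: `diff l 0 n = l n`, `diff l (k + 1) n = diff l k n - diff l k (n + 1)`. -/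
def diff (l : ℕ → ℝ) : ℕ → ℕ → ℝ
  | 0, n => l n
  | k + 1, n => diff l k n - diff l k (n + 1)

/-- Condition (4a): all differences of order `k ≥ 1` are nonnegative (indices `n ≥ 1`). -/
def FullyMonotonic (l : ℕ → ℝ) : Prop := ∀ k n : ℕ, 1 ≤ k → 1 ≤ n → 0 ≤ diff l k n

/-- `(l_n)_{n ≥ 1}` is admissible for `(s_n)_{n ≥ 1}` and the limit of the weighted means
`(l_1 s_1 + … + l_n s_n) / (l_1 + … + l_n)` is `c`: the `l_n` are positive, their sum diverges and
the weighted means converge to `c`. -/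
def AdmissibleWithLimit (s l : ℕ → ℝ) (c : ℝ) : Prop :=
  (∀ n : ℕ, 1 ≤ n → 0 < l n) ∧
  Tendsto (fun n : ℕ => ∑ i ∈ Finset.Icc 1 n, l i) atTop atTop ∧
  Tendsto (fun n : ℕ => (∑ i ∈ Finset.Icc 1 n, l i * s i) / ∑ i ∈ Finset.Icc 1 n, l i)
    atTop (𝓝 c)

open Pool.Agent.R261.Weights

lemma diff_shift (d : ℕ → ℝ) (k n : ℕ) :
    diff (fun i => wt d (i - 1)) k (n + 1) = dif (wt d) k n := by
  induction k generalizing n with
  | zero => rfl
  | succ k ih => rw [diff, dif, ih n, ih (n + 1)]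

lemma sum_shift (f : ℕ → ℝ) (N : ℕ) :
    ∑ i ∈ Finset.Icc 1 N, f i = ∑ i ∈ range N, f (i + 1) := by
  rw [Finset.range_eq_Ico, Finset.sum_Ico_add' f 0 N 1]
  rfl

/-- the sequence: `1` on the blocks `2^(4^k) ≤ n < 2^(4^(k+1))` with `k` even -/
noncomputable def sq (n : ℕ) : ℝ := if Even (Nat.log 4 (Nat.log 2 n)) then 1 else 0

lemma sq_abs (n : ℕ) : |sq n| ≤ 1 := by unfold sq; split_ifs <;> simp

lemma sq_block {k n : ℕ} (h1 : 2 ^ 4 ^ k ≤ n) (h2 : n < 2 ^ 4 ^ (k + 1)) :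
    sq n = if Even k then 1 else 0 := by
  have hn : n ≠ 0 := by
    have : 0 < 2 ^ 4 ^ k := by positivity
    omega
  have h3 : 4 ^ k ≤ Nat.log 2 n := (Nat.le_log_iff_pow_le (by norm_num) hn).2 h1
  have h4 : Nat.log 2 n < 4 ^ (k + 1) := (Nat.log_lt_iff_lt_pow (by norm_num) hn).2 h2
  have h5 : Nat.log 4 (Nat.log 2 n) = k := by
    have hne : Nat.log 2 n ≠ 0 := by
      have : 0 < 4 ^ k := by positivity
      omega
    apply le_antisymm
    · have := (Nat.log_lt_iff_lt_pow (by norm_num) hne).2 h4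
      omega
    · exact (Nat.le_log_iff_pow_le (by norm_num) hne).2 h3
  unfold sq
  rw [h5]

lemma cont {s : ℕ → ℝ} (hs : ∀ n, |s n| ≤ 1) {a b : ℝ} (ha : 0 < a) (hab : a ≤ b) (hb : b < 1) :
    ContinuousOn (abel s) (Set.Icc a b) := by
  unfold abel
  refine continuousOn_id.mul ?_
  refine continuousOn_tsum (u := fun n => (1 - a) ^ n) (fun n => ?_) ?_ ?_
  · fun_prop
  · exact summable_geometric_of_lt_one (by linarith) (by linarith)
  · intro n x hx
    have hx1 : 0 ≤ 1 - x := by linarith [hx.2]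
    rw [norm_mul, Real.norm_eq_abs, Real.norm_eq_abs, abs_of_nonneg (pow_nonneg hx1 n)]
    calc (1 - x) ^ n * |s n| ≤ (1 - x) ^ n * 1 :=
          mul_le_mul_of_nonneg_left (hs n) (pow_nonneg hx1 n)
      _ ≤ (1 - a) ^ n := by
          rw [mul_one]
          exact pow_le_pow_left₀ hx1 (by linarith [hx.1]) n

/-- If `s n = σ` for `a ≤ n + 1 < b` then the Abel mean at `1 - x` is close to `σ`. -/
lemma abel_near {s : ℕ → ℝ} {σ : ℝ} (hs : ∀ n, |s n - σ| ≤ 1) (hsb : ∀ n, |s n| ≤ 1) {a b : ℕ}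
    (hab : ∀ n, a ≤ n → n < b → s n = σ) {x : ℝ} (hx0 : 0 < x) (hx1 : x < 1) :
    |abel s x - σ| ≤ x * a + (1 - x) ^ b := by
  have h0 : 0 ≤ 1 - x := by linarith
  have hg : Summable (fun n : ℕ => (1 - x) ^ n) :=
    summable_geometric_of_lt_one h0 (by linarith)
  have hle : ∀ n, ‖(1 - x) ^ n * s n‖ ≤ (1 - x) ^ n := fun n => by
    have h1 : 0 ≤ (1 - x) ^ n := pow_nonneg h0 _
    rw [norm_mul, Real.norm_eq_abs, Real.norm_eq_abs, abs_of_nonneg h1]
    have := hsb n
    nlinarith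
  have hsum : Summable (fun n : ℕ => (1 - x) ^ n * s n) := Summable.of_norm_bounded hg hle
  have e1 : σ = x * ∑' n : ℕ, (1 - x) ^ n * σ := by
    rw [tsum_mul_right, tsum_geometric_of_lt_one h0 (by linarith)]
    have : x ≠ 0 := hx0.ne'
    have e : 1 - (1 - x) = x := by ring
    rw [e, ← mul_assoc, mul_inv_cancel₀ this, one_mul]
  have e2 : abel s x - σ = x * ∑' n : ℕ, (1 - x) ^ n * (s n - σ) := by
    have h3 : ∀ n : ℕ, (1 - x) ^ n * (s n - σ) = (1 - x) ^ n * s n - (1 - x) ^ n * σ :=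
      fun n => by ring
    simp_rw [h3]
    rw [hsum.tsum_sub (hg.mul_right σ), mul_sub, ← e1]
    rfl
  rw [e2, abs_mul, abs_of_pos hx0]
  set G : ℕ → ℝ := fun n => (if n < a then 1 else 0) + (if b ≤ n then (1 - x) ^ n else 0) with hG
  have hs1 : HasSum (fun n : ℕ => if n < a then (1 : ℝ) else 0) a := by
    have : HasSum (fun n : ℕ => if n < a then (1 : ℝ) else 0)
        (∑ n ∈ Finset.range a, (if n < a then (1 : ℝ) else 0)) :=
      hasSum_sum_of_ne_finset_zero (fun n hn => if_neg (by rwa [mem_range] at hn))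
    have e : ∑ n ∈ Finset.range a, (if n < a then (1 : ℝ) else 0) = a := by
      rw [Finset.sum_congr rfl (fun n hn => if_pos (mem_range.1 hn))]
      simp
    rwa [e] at this
  have hs2 : HasSum (fun n : ℕ => if b ≤ n then (1 - x) ^ n else 0) ((1 - x) ^ b * (1 / x)) := by
    rw [← hasSum_nat_add_iff' b]
    have e : ∑ i ∈ Finset.range b, (if b ≤ i then (1 - x) ^ i else 0) = 0 :=
      Finset.sum_eq_zero fun i hi => if_neg (by rw [mem_range] at hi; omega)
    rw [e, sub_zero]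
    have e2 : (fun n : ℕ => if b ≤ n + b then (1 - x) ^ (n + b) else 0) =
        fun n => (1 - x) ^ b * (1 - x) ^ n := by
      ext n
      rw [if_pos (by omega), pow_add, mul_comm]
    rw [e2]
    have := (hasSum_geometric_of_lt_one h0 (by linarith : 1 - x < 1)).mul_left ((1 - x) ^ b)
    have e3 : (1 - (1 - x))⁻¹ = 1 / x := by rw [one_div]; congr 1; ring
    rwa [e3] at this
  have hG2 := hs1.add hs2
  have hbd : ∀ n, ‖(1 - x) ^ n * (s n - σ)‖ ≤
      (if n < a then (1 : ℝ) else 0) + (if b ≤ n then (1 - x) ^ n else 0) := by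
    intro n
    have h1 : 0 ≤ (1 - x) ^ n := pow_nonneg h0 _
    have h1' : (1 - x) ^ n ≤ 1 := pow_le_one₀ h0 (by linarith)
    rw [norm_mul, Real.norm_eq_abs, Real.norm_eq_abs, abs_of_nonneg h1]
    have h4 := hs n
    have h5 := abs_nonneg (s n - σ)
    by_cases hna : n < a
    · rw [if_pos hna]
      split_ifs <;> nlinarith
    · rw [if_neg hna]
      by_cases hnb : b ≤ n
      · rw [if_pos hnb]; nlinarith
      · rw [if_neg hnb, hab n (by omega) (by omega)]
        simp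
  have h6 := tsum_of_norm_bounded hG2 hbd
  rw [Real.norm_eq_abs] at h6
  calc x * |∑' n : ℕ, (1 - x) ^ n * (s n - σ)| ≤ x * (a + (1 - x) ^ b * (1 / x)) :=
        mul_le_mul_of_nonneg_left h6 hx0.le
    _ = x * a + (1 - x) ^ b := by field_simp

/-- the scale of the `k`-th block -/
noncomputable def xs (k : ℕ) : ℝ := (1 / 2) ^ (2 * 4 ^ k)

lemma four_pow (k : ℕ) : k + 1 ≤ 4 ^ k := by
  induction k with
  | zero => norm_num
  | succ k ih => rw [pow_succ]; omega

lemma xs_pos (k : ℕ) : 0 < xs k := by unfold xs; positivity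

lemma xs_lt (k : ℕ) : xs k ≤ 1 / 4 := by
  unfold xs
  calc ((1 : ℝ) / 2) ^ (2 * 4 ^ k) ≤ (1 / 2) ^ 2 :=
        pow_le_pow_of_le_one (by norm_num) (by norm_num) (by have := four_pow k; omega)
    _ = 1 / 4 := by norm_num

lemma xs_anti {j k : ℕ} (h : j ≤ k) : xs k ≤ xs j := by
  unfold xs
  apply pow_le_pow_of_le_one (by norm_num) (by norm_num)
  have : 4 ^ j ≤ 4 ^ k := Nat.pow_le_pow_right (by norm_num) h
  omega

lemma near_xs (k : ℕ) : |abel (fun n => sq (n + 1)) (xs k) - (if Even k then 1 else 0)| ≤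
    3 * (1 / 2) ^ k := by
  have hx0 := xs_pos k
  have hx1 := xs_lt k
  have h1 := abel_near (s := fun n => sq (n + 1)) (σ := if Even k then 1 else 0)
    (a := 2 ^ 4 ^ k) (b := 2 ^ 4 ^ (k + 1) - 1) ?_ (fun n => sq_abs _) ?_ hx0
    (by linarith)
  · refine h1.trans ?_
    have e1 : xs k * ((2 ^ 4 ^ k : ℕ) : ℝ) = (1 / 2) ^ (4 ^ k) := by
      unfold xs
      push_cast
      rw [two_mul, pow_add, mul_assoc, ← mul_pow]
      norm_num
    have e2 : (1 - xs k) ^ (2 ^ 4 ^ (k + 1) - 1) ≤ 2 * (1 / 2) ^ (4 ^ k) := by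
      have h2 : 1 - xs k ≤ Real.exp (-(xs k)) := by
        have := Real.add_one_le_exp (-(xs k))
        linarith
      have h3 : (1 - xs k) ^ (2 ^ 4 ^ (k + 1) - 1) ≤
          Real.exp (-(((2 ^ 4 ^ (k + 1) - 1 : ℕ) : ℝ) * xs k)) := by
        calc (1 - xs k) ^ (2 ^ 4 ^ (k + 1) - 1) ≤ Real.exp (-(xs k)) ^ (2 ^ 4 ^ (k + 1) - 1) :=
              pow_le_pow_left₀ (by linarith) h2 _
          _ = _ := by rw [← Real.exp_nat_mul]; ring_nf
      have h4 : (2 : ℝ) ^ 4 ^ k / 2 ≤ ((2 ^ 4 ^ (k + 1) - 1 : ℕ) : ℝ) * xs k := by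
        have h5 : ((2 ^ 4 ^ (k + 1) - 1 : ℕ) : ℝ) = (2 : ℝ) ^ 4 ^ (k + 1) - 1 := by
          rw [Nat.cast_sub Nat.one_le_two_pow]
          push_cast; rfl
        rw [h5]
        have h6 : (2 : ℝ) ^ 4 ^ (k + 1) * xs k = 2 ^ (2 * 4 ^ k) := by
          unfold xs
          have : 4 ^ (k + 1) = 2 * 4 ^ k + 2 * 4 ^ k := by rw [pow_succ]; ring
          rw [this, pow_add, mul_assoc, ← mul_pow]
          norm_num
        have h7 : (2 : ℝ) ^ (2 * 4 ^ k) = (2 : ℝ) ^ (4 ^ k) * (2 : ℝ) ^ (4 ^ k) := by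
          rw [two_mul, pow_add]
        have h8 : (2 : ℝ) ≤ (2 : ℝ) ^ (4 ^ k) := by
          calc (2 : ℝ) = 2 ^ 1 := by norm_num
            _ ≤ (2 : ℝ) ^ (4 ^ k) := pow_le_pow_right₀ (by norm_num) (by have := four_pow k; omega)
        rw [sub_mul, h6, one_mul, h7]
        nlinarith
      refine h3.trans ?_
      have h9 : (0 : ℝ) < (2 : ℝ) ^ 4 ^ k / 2 := by positivity
      calc Real.exp (-(((2 ^ 4 ^ (k + 1) - 1 : ℕ) : ℝ) * xs k))
          ≤ Real.exp (-((2 : ℝ) ^ 4 ^ k / 2)) := Real.exp_le_exp.2 (by linarith)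
        _ ≤ 1 / ((2 : ℝ) ^ 4 ^ k / 2) := by
            rw [Real.exp_neg, one_div]
            apply inv_anti₀ h9
            have := Real.add_one_le_exp ((2 : ℝ) ^ 4 ^ k / 2)
            linarith
        _ = 2 * (1 / 2) ^ (4 ^ k) := by
            rw [one_div_pow]; field_simp
    rw [e1]
    have e3 : ((1 : ℝ) / 2) ^ (4 ^ k) ≤ (1 / 2) ^ k :=
      pow_le_pow_of_le_one (by norm_num) (by norm_num) (by have := four_pow k; omega)
    linarith
  · intro n
    unfold sq
    split_ifs <;> simp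
  · intro n h2 h3
    exact sq_block (by omega) (by omega)

/-- There is a sequence of zeros and ones such that **for every `c ∈ [0, 1]`** some admissible fully
monotonic sequence has weighted means with limit `c`. In particular two admissible fully monotonic
sequences can give different limits. -/
theorem result : ∃ s : ℕ → ℝ, (∀ n, s n = 0 ∨ s n = 1) ∧
    ∀ c ∈ Set.Icc (0 : ℝ) 1, ∃ l : ℕ → ℝ, FullyMonotonic l ∧ AdmissibleWithLimit s l c := by
  refine ⟨sq, fun n => ?_, fun c hc => ?_⟩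
  · unfold sq
    split_ifs
    · exact Or.inr rfl
    · exact Or.inl rfl
  have hs' : ∀ n, |sq (n + 1)| ≤ 1 := fun n => sq_abs _
  have hf : ∀ ε > 0, ∀ η > 0, ∃ x, 0 < x ∧ x < η ∧ |abel (fun n => sq (n + 1)) x - c| < ε := by
    intro ε hε η hη
    obtain ⟨m, hm⟩ : ∃ m : ℕ, 3 * ((1 : ℝ) / 2) ^ m < min ε η := by
      obtain ⟨m, hm⟩ := exists_pow_lt_of_lt_one (show 0 < min ε η / 3 by positivity)
        (show (1 : ℝ) / 2 < 1 by norm_num)
      exact ⟨m, by linarith⟩
    have hmε : 3 * ((1 : ℝ) / 2) ^ m < ε := hm.trans_le (min_le_left _ _)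
    have hmη : 3 * ((1 : ℝ) / 2) ^ m < η := hm.trans_le (min_le_right _ _)
    have hk : ∀ k, m ≤ k → xs k < η ∧ 3 * ((1 : ℝ) / 2) ^ k < ε := by
      intro k hk
      have h1 : ((1 : ℝ) / 2) ^ k ≤ (1 / 2) ^ m :=
        pow_le_pow_of_le_one (by norm_num) (by norm_num) hk
      have h2 : xs k ≤ (1 / 2) ^ k := by
        unfold xs
        apply pow_le_pow_of_le_one (by norm_num) (by norm_num)
        have := four_pow k; omega
      have h3 : (0 : ℝ) < (1 / 2) ^ m := by positivity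
      exact ⟨by linarith, by linarith⟩
    have hev := near_xs (2 * m)
    rw [if_pos (even_two_mul m)] at hev
    have hodd := near_xs (2 * m + 1)
    rw [if_neg (by rw [Nat.not_even_iff_odd]; exact odd_two_mul_add_one m), sub_zero] at hodd
    obtain ⟨k1, k2⟩ := hk (2 * m) (by omega)
    obtain ⟨k3, k4⟩ := hk (2 * m + 1) (by omega)
    set u := abel (fun n => sq (n + 1)) (xs (2 * m)) with hu
    set v := abel (fun n => sq (n + 1)) (xs (2 * m + 1)) with hv
    rcases lt_or_ge c v with h1 | h1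
    · refine ⟨xs (2 * m + 1), xs_pos _, k3, ?_⟩
      rw [← hv, abs_of_pos (by linarith)]
      have := le_abs_self v
      linarith [hc.1]
    rcases lt_or_ge u c with h2 | h2
    · refine ⟨xs (2 * m), xs_pos _, k1, ?_⟩
      rw [← hu, abs_of_neg (by linarith)]
      have := neg_abs_le (u - 1)
      linarith [hc.2]
    have hmono : xs (2 * m + 1) ≤ xs (2 * m) := xs_anti (by omega)
    have hlt1 := xs_lt (2 * m)
    have hIVT := intermediate_value_Icc hmono
      (cont (s := fun n => sq (n + 1)) hs' (xs_pos (2 * m + 1)) hmono (by linarith))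
    obtain ⟨x, hx, hxc⟩ := hIVT ⟨h1, h2⟩
    refine ⟨x, (xs_pos _).trans_le hx.1, hx.2.trans_lt k1, ?_⟩
    rw [hxc]
    simpa using hε
  obtain ⟨d, hd, hdc⟩ := exists_lac hf
  refine ⟨fun i => wt d (i - 1), ?_, fun n _ => wt_pos hd _, ?_, ?_⟩
  · intro k n _ hn
    obtain ⟨m, rfl⟩ : ∃ m, n = m + 1 := ⟨n - 1, by omega⟩
    rw [diff_shift]
    exact dif_nonneg hd k m
  · simp_rw [sum_shift, Nat.add_sub_cancel]
    exact sum_wt_tendsto hd
  · simp_rw [sum_shift, Nat.add_sub_cancel]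
    exact main (s := fun n => sq (n + 1)) hs' hd hdc

end Pool.Agent.Results.MP_968b24_an.EveryLimit
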