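import Pool.Agent.R261.Weights

/-!
# MP_968b24_an, Q1: every bounded sequence has admissible fully monotonic weights

Weights `l_n = ∑_j d_j (1 - d_j)^(n-1)` where the `d_j` tend to zero at least geometrically and the
Abel means of `(s_n)` at the points `1 - d_j` converge.
-/

set_option autoImplicit false

open Filter Topology Finset

namespace Pool.Agent.Results.MP_968b24_an.FullyMonotonicWeights

/-- The iterated differences: `diff l 0 n = l n`, `diff l (k + 1) n = diff l k n - diff l k (n + 1)`. -/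
def diff (l : ℕ → ℝ) : ℕ → ℕ → ℝ
  | 0, n => l n
  | k + 1, n => diff l k n - diff l k (n + 1)

/-- Condition (4a): all differences of order `k ≥ 1` are nonnegative (indices `n ≥ 1`). -/
def FullyMonotonic (l : ℕ → ℝ) : Prop := ∀ k n : ℕ, 1 ≤ k → 1 ≤ n → 0 ≤ diff l k n

/-- Condition (4b): `l_1 ≥ l_2 ≥ …`. -/
def Nonincreasing (l : ℕ → ℝ) : Prop := ∀ n : ℕ, 1 ≤ n → l (n + 1) ≤ l n

/-- `(l_n)_{n ≥ 1}` is admissible for `(s_n)_{n ≥ 1}`: the `l_n` are positive, their sum diverges and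
the weighted means `(l_1 s_1 + … + l_n s_n) / (l_1 + … + l_n)` converge. -/
def Admissible (s l : ℕ → ℝ) : Prop :=
  (∀ n : ℕ, 1 ≤ n → 0 < l n) ∧
  Tendsto (fun n : ℕ => ∑ i ∈ Finset.Icc 1 n, l i) atTop atTop ∧
  ∃ c : ℝ, Tendsto (fun n : ℕ => (∑ i ∈ Finset.Icc 1 n, l i * s i) / ∑ i ∈ Finset.Icc 1 n, l i)
    atTop (𝓝 c)

open Pool.Agent.R261.Weights

lemma diff_shift (d : ℕ → ℝ) (k n : ℕ) :
    diff (fun i => wt d (i - 1)) k (n + 1) = dif (wt d) k n := by
  induction k generalizing n with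
  | zero => rfl
  | succ k ih => rw [diff, dif, ih n, ih (n + 1)]

lemma sum_shift (f : ℕ → ℝ) (N : ℕ) :
    ∑ i ∈ Finset.Icc 1 N, f i = ∑ i ∈ range N, f (i + 1) := by
  rw [Finset.range_eq_Ico, Finset.sum_Ico_add' f 0 N 1]
  rfl

/-- **Every bounded real sequence admits an admissible fully monotonic sequence of weights**
(question (a)); such a sequence is in particular nonincreasing (question (b)). -/
theorem result (s : ℕ → ℝ) (hs : ∃ B : ℝ, ∀ n : ℕ, 1 ≤ n → |s n| ≤ B) :
    ∃ l : ℕ → ℝ, Admissible s l ∧ FullyMonotonic l ∧ Nonincreasing l := by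
  obtain ⟨B, hB⟩ := hs
  have hs' : ∀ n, |s (n + 1)| ≤ B := fun n => hB (n + 1) (by omega)
  -- Abel means are bounded
  have hab : ∀ x, 0 < x → x < 1 → |abel (fun n => s (n + 1)) x| ≤ B := by
    intro x h0 h1
    have := abel_sub (s := fun n => s (n + 1)) hs' h0 h1 0
    simpa using this
  have hx : ∀ n : ℕ, abel (fun n => s (n + 1)) (1 / ((n : ℝ) + 2)) ∈ Set.Icc (-B) B := by
    intro n
    apply abs_le.1
    apply hab
    · positivity
    · rw [div_lt_one (by positivity)]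
      have : (0 : ℝ) ≤ n := Nat.cast_nonneg n
      linarith
  obtain ⟨c, -, φ, hφ, hc⟩ := isCompact_Icc.tendsto_subseq hx
  have hf : ∀ ε > 0, ∀ η > 0, ∃ x, 0 < x ∧ x < η ∧ |abel (fun n => s (n + 1)) x - c| < ε := by
    intro ε hε η hη
    obtain ⟨N1, h1⟩ := (Metric.tendsto_atTop.1 hc) ε hε
    have h2 : Tendsto (fun n : ℕ => 1 / ((φ n : ℝ) + 2)) atTop (𝓝 0) := by
      have h3 : Tendsto (fun n : ℕ => ((φ n : ℝ) + 2)) atTop atTop :=
        tendsto_atTop_add_const_right _ _ (tendsto_natCast_atTop_atTop.comp hφ.tendsto_atTop)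
      simp_rw [one_div]
      exact h3.inv_tendsto_atTop
    obtain ⟨N2, h4⟩ := (Metric.tendsto_atTop.1 h2) η hη
    refine ⟨1 / ((φ (max N1 N2) : ℝ) + 2), by positivity, ?_, ?_⟩
    · have := h4 (max N1 N2) (le_max_right _ _)
      rw [Real.dist_eq, sub_zero, abs_of_pos (by positivity)] at this
      exact this
    · have := h1 (max N1 N2) (le_max_left _ _)
      rwa [Real.dist_eq] at this
  obtain ⟨d, hd, hdc⟩ := exists_lac hf
  refine ⟨fun i => wt d (i - 1), ⟨fun n _ => wt_pos hd _, ?_, c, ?_⟩, ?_, ?_⟩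
  · simp_rw [sum_shift, Nat.add_sub_cancel]
    exact sum_wt_tendsto hd
  · simp_rw [sum_shift, Nat.add_sub_cancel]
    exact main (s := fun n => s (n + 1)) hs' hd hdc
  · intro k n _ hn
    obtain ⟨m, rfl⟩ : ∃ m, n = m + 1 := ⟨n - 1, by omega⟩
    rw [diff_shift]
    exact dif_nonneg hd k m
  · intro n hn
    obtain ⟨m, rfl⟩ : ∃ m, n = m + 1 := ⟨n - 1, by omega⟩
    have := dif_nonneg hd 1 m
    simp only [dif] at this
    simp only [Nat.add_sub_cancel]
    linarith

end Pool.Agent.Results.MP_968b24_an.FullyMonotonicWeights
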